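import Pool.Agent.Helper70.KN.Goals4

/-!
# Project KN, part 4 (MP_20ee5e_ag), packet CLO: from any `L` to a compact one
-/

set_option autoImplicit false

open MeasureTheory Set

namespace Pool.Agent.Helper13.KN.CLO

open Pool.Agent.Helper70.KN

theorem zero_notMem {N : ℕ} (V : Finset (Fin N → ℕ)) (hV : (0 : Fin N → ℕ) ∉ V) :
    (0 : Fin N → ℝ) ∉ newton V := by
  rintro ⟨z, hz, hz0⟩
  have hsub : convexHull ℝ ((fun (v : Fin N → ℕ) (i : Fin N) => (v i : ℝ)) '' (V : Set (Fin N → ℕ))) ⊆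
      {x : Fin N → ℝ | 1 ≤ ∑ i, x i} := by
    apply convexHull_min
    · rintro _ ⟨v, hv, rfl⟩
      have hne : v ≠ 0 := by
        rintro rfl
        exact hV (Finset.mem_coe.1 hv)
      obtain ⟨i, hi⟩ := Function.ne_iff.1 hne
      have h1 : 1 ≤ v i := Nat.one_le_iff_ne_zero.2 hi
      have h2 : v i ≤ ∑ j, v j := Finset.single_le_sum (fun j _ => Nat.zero_le _) (Finset.mem_univ i)
      show (1 : ℝ) ≤ ∑ j, (v j : ℝ)
      exact_mod_cast h1.trans h2
    · intro x hx y hy a b ha hb hab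
      have hx' : 1 ≤ ∑ i, x i := hx
      have hy' : 1 ≤ ∑ i, y i := hy
      show 1 ≤ ∑ i, (a • x + b • y) i
      have e : ∑ i, (a • x + b • y) i = a * ∑ i, x i + b * ∑ i, y i := by
        rw [Finset.mul_sum, Finset.mul_sum, ← Finset.sum_add_distrib]
        rfl
      rw [e]
      nlinarith
  have h1 : 1 ≤ ∑ i, z i := hsub hz
  have h2 : ∑ i, z i ≤ ∑ i : Fin N, (0 : ℝ) := Finset.sum_le_sum fun i _ => hz0 i
  rw [Finset.sum_const_zero] at h2
  linarith

theorem t : S_CLO := by
  intro N V L ω hc h0 hω hL hcut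
  have hcl : ∀ {P : (Fin N → ℝ) → Prop}, IsClosed {w | P w} → (∀ w ∈ L, P w) → ∀ w ∈ closure L, P w := by
    intro P hP h w hw
    exact closure_minimal (fun v hv => h v hv : L ⊆ {w | P w}) hP hw
  have hbd : ∀ w ∈ closure L, ∀ j, 0 ≤ w j ∧ w j ≤ ω := by
    apply hcl ?_ hL
    have e : {w : Fin N → ℝ | ∀ j, 0 ≤ w j ∧ w j ≤ ω} = ⋂ j, ({w | 0 ≤ w j} ∩ {w | w j ≤ ω}) := by
      ext w
      simp
    rw [e]
    exact isClosed_iInter fun j => (isClosed_le continuous_const (continuous_apply j)).inter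
      (isClosed_le (continuous_apply j) continuous_const)
  refine ⟨⟨hc, h0, hω, ?_, ?_, hbd, ?_⟩, ?_⟩
  · refine IsCompact.of_isClosed_subset (isCompact_Icc (a := (0 : Fin N → ℝ)) (b := fun _ => ω))
      isClosed_closure ?_
    intro w hw
    exact ⟨fun j => (hbd w hw j).1, fun j => (hbd w hw j).2⟩
  · rw [closure_nonempty_iff]
    by_contra hne
    rw [Set.not_nonempty_iff_eq_empty] at hne
    apply zero_notMem V h0
    rw [hcut, hne]
    exact ⟨le_rfl, fun w hw => absurd hw (Set.notMem_empty w)⟩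
  · rw [hcut]
    ext x
    constructor
    · rintro ⟨hx, h⟩
      refine ⟨hx, hcl ?_ h⟩
      refine isClosed_le continuous_const ?_
      unfold dt
      exact continuous_finsetSum _ fun j _ => (continuous_apply j).mul continuous_const
    · rintro ⟨hx, h⟩
      exact ⟨hx, fun w hw => h w (subset_closure hw)⟩
  · intro J η h
    refine hcl ?_ h
    exact isClosed_le (continuous_finsetSum _ fun j _ => continuous_apply j) continuous_const

end Pool.Agent.Helper13.KN.CLO
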