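import Pool.Agent.Helper70.KN.Goals

set_option autoImplicit false

open MeasureTheory Set

namespace Pool.Agent.Helper13.KN.SI

open Pool.Agent.Helper70.KN

theorem t : S_SI := by
  intro N S i hS
  cases N with
  | zero => exact i.elim0
  | succ n =>
    have hmp := (volume_preserving_piFinSuccAbove (fun _ : Fin (n + 1) => ℝ) i).symm
    set e := (MeasurableEquiv.piFinSuccAbove (fun _ : Fin (n + 1) => ℝ) i).symm with he
    have happ : ∀ (t : ℝ) (y : Fin n → ℝ), e (t, y) = i.insertNth (α := fun _ => ℝ) t y :=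
      fun t y => rfl
    have h1 : volume S =
        ∫⁻ t : ℝ, volume {y : Fin n → ℝ | (i.insertNth (α := fun _ => ℝ) t y : Fin (n + 1) → ℝ) ∈ S} := by
      rw [← hmp.measure_preimage_equiv S]
      change (volume.prod volume) (e ⁻¹' S) = _
      rw [Measure.prod_apply (e.measurable hS)]
      rfl
    rw [h1]
    refine lintegral_congr fun t => ?_
    rw [← hmp.measure_preimage_equiv {x | 0 ≤ x i ∧ x i < 1 ∧ Function.update x i t ∈ S}]
    have h2 : e ⁻¹' {x | 0 ≤ x i ∧ x i < 1 ∧ Function.update x i t ∈ S} =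
        Ico (0 : ℝ) 1 ×ˢ {y : Fin n → ℝ | (i.insertNth (α := fun _ => ℝ) t y : Fin (n + 1) → ℝ) ∈ S} := by
      ext ⟨s, y⟩
      simp only [mem_preimage, happ, Set.mem_ofPred_eq, mem_prod, mem_Ico, Fin.insertNth_apply_same,
        Fin.update_insertNth, and_assoc]
    rw [h2]
    change _ = (volume.prod volume) _
    rw [Measure.prod_prod]
    simp

end Pool.Agent.Helper13.KN.SI
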